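import Mathlib

/-!
# Reliability roots of matroids: definitions (MP_a27c8d_co)
-/

namespace Pool.Agent.MatRel

/-- The number `F_i` of independent sets of size `i` of the matroid `M`. -/
noncomputable def indepCount {α : Type*} (M : Matroid α) (i : ℕ) : ℕ :=
  {I : Set α | M.Indep I ∧ I.ncard = i}.ncard

/-- The reliability polynomial `Rel(M, p) = ∑ F_i p^i (1 - p)^(m - i)` of a finite matroid `M` of
order `m`, as a function of the complex number `p` (the terms with `i` larger than the rank
vanish). -/
noncomputable def rel {α : Type*} (M : Matroid α) (p : ℂ) : ℂ :=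
  ∑ i ∈ Finset.range (M.E.ncard + 1),
    (indepCount M i : ℂ) * p ^ i * (1 - p) ^ (M.E.ncard - i)

/-- `M` has a reliability root outside the closed unit disk. -/
def HasRootOutside {α : Type*} (M : Matroid α) : Prop := ∃ z : ℂ, 1 < ‖z‖ ∧ rel M z = 0

/-- The smallest rank of a (finite) matroid with a reliability root outside the unit disk. -/
noncomputable def rMin : ℕ :=
  sInf {r : ℕ | ∃ (n : ℕ) (M : Matroid (Fin n)),
    M.E = Set.univ ∧ M.eRank = r ∧ HasRootOutside M}

/-- The smallest order of a (finite) matroid with a reliability root outside the unit disk. -/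
noncomputable def mMin : ℕ :=
  sInf {n : ℕ | ∃ M : Matroid (Fin n), M.E = Set.univ ∧ HasRootOutside M}

end Pool.Agent.MatRel
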