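import Pool.Agent.MatRel.Defs

/-!
# The matroid and its independent sets (MP_a27c8d_co)
-/

open Finset

namespace Pool.Agent.MatRel

/-- the subset of `Fin 7` with bit mask `t` -/
def toSet7 (t : ℕ) : Finset (Fin 7) := univ.filter (fun i => t.testBit i.val)

/-- The bit masks of the bases of the non-Fano plane on `Fin 7`: all triples except
`{0,4,5}, {0,3,6}, {1,3,5}, {1,4,6}, {2,3,4}, {2,5,6}`. -/
def bl : List ℕ := [7, 11, 19, 35, 67, 13, 21, 37, 69, 25, 41, 81, 97, 14, 22, 38, 70, 26, 74, 50, 98, 44, 76, 52, 84, 56, 88, 104, 112]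

/-- membership table of `bl` -/
def mt : ℕ := 5213054968455605328136788976887936

lemma mt_ok : ∀ m < 128, mt.testBit m = true → m ∈ bl := by decide +kernel

/-- the exchange property, as a Boolean computation -/
def exchB : Bool :=
  bl.all fun X => bl.all fun Y => [0, 1, 2, 3, 4, 5, 6].all fun a =>
    !(X.testBit a) || (Y.testBit a || [0, 1, 2, 3, 4, 5, 6].any fun b =>
      Y.testBit b && (!(X.testBit b) && mt.testBit ((X ^^^ 2 ^ a) ||| 2 ^ b)))

lemma exchB_true : exchB = true := by decide +kernel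

lemma bl_lt : ∀ m ∈ bl, m < 128 := by decide +kernel

lemma exch_masks (X : ℕ) (hX : X ∈ bl) (Y : ℕ) (hY : Y ∈ bl) (a : ℕ) (ha : a < 7)
    (h1 : X.testBit a = true) (h2 : Y.testBit a = false) :
    ∃ b < 7, Y.testBit b = true ∧ X.testBit b = false ∧ ((X ^^^ 2 ^ a) ||| 2 ^ b) ∈ bl := by
  have h := exchB_true
  unfold exchB at h
  rw [List.all_eq_true] at h
  have h3 := h X hX
  rw [List.all_eq_true] at h3
  have h4 := h3 Y hY
  rw [List.all_eq_true] at h4
  have ha' : a ∈ [0, 1, 2, 3, 4, 5, 6] := by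
    simp only [List.mem_cons, List.not_mem_nil, or_false]; omega
  have h5 := h4 a ha'
  rw [h1, h2] at h5
  simp only [Bool.not_true, Bool.false_or, List.any_eq_true, Bool.and_eq_true, Bool.not_eq_true']
    at h5
  obtain ⟨b, hb, hb1, hb2, hb3⟩ := h5
  have hb' : b < 7 := by
    simp only [List.mem_cons, List.not_mem_nil, or_false] at hb; omega
  refine ⟨b, hb', hb1, hb2, mt_ok _ ?_ hb3⟩
  have hX7 : X < 2 ^ 7 := bl_lt X hX
  have h6 : (X ^^^ 2 ^ a) ||| 2 ^ b < 2 ^ 7 :=
    Nat.or_lt_two_pow (Nat.xor_lt_two_pow hX7 (Nat.pow_lt_pow_right (by norm_num) ha))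
      (Nat.pow_lt_pow_right (by norm_num) hb')
  omega

def IsB (B : Set (Fin 7)) : Prop := ∃ m ∈ bl, ((toSet7 m : Finset (Fin 7)) : Set (Fin 7)) = B

lemma mem_toSet7 (t : ℕ) (i : Fin 7) : i ∈ toSet7 t ↔ t.testBit i.val = true := by
  simp [toSet7]

lemma exchange : Matroid.ExchangeProperty IsB := by
  rintro _ _ ⟨X, hX, rfl⟩ ⟨Y, hY, rfl⟩ a ha
  have ha1 : X.testBit a.val = true := (mem_toSet7 _ _).1 (by exact_mod_cast ha.1)
  have ha2 : Y.testBit a.val = false := by
    by_contra h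
    exact ha.2 (by exact_mod_cast (mem_toSet7 Y a).2 (by simpa using h))
  obtain ⟨b, hb, hb1, hb2, hb3⟩ := exch_masks X hX Y hY a.val a.2 ha1 ha2
  refine ⟨⟨b, hb⟩, ⟨?_, ?_⟩, ⟨_, hb3, ?_⟩⟩
  · exact_mod_cast (mem_toSet7 Y ⟨b, hb⟩).2 hb1
  · intro h
    have := (mem_toSet7 X ⟨b, hb⟩).1 (by exact_mod_cast h)
    rw [hb2] at this
    exact Bool.false_ne_true this
  · ext i
    simp only [Finset.mem_coe, mem_toSet7, Set.mem_insert_iff, Set.mem_sdiff,
      Set.mem_singleton_iff, Nat.testBit_or, Nat.testBit_xor, Nat.testBit_two_pow, Bool.or_eq_true,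
      decide_eq_true_eq, Fin.ext_iff]
    constructor
    · rintro (h | h)
      · right
        by_cases hia : a.val = i.val
        · rw [hia] at ha1
          rw [ha1] at h
          simp [hia] at h
        · simp only [hia, decide_false, Bool.bne_false] at h
          exact ⟨h, fun h' => hia h'.symm⟩
      · left; exact h.symm
    · rintro (h | ⟨h1, h2⟩)
      · right; exact h.symm
      · left
        have : ¬ a.val = i.val := fun h' => h2 h'.symm
        simp [this, h1]

/-- The non-Fano matroid. -/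
noncomputable def N7 : Matroid (Fin 7) :=
  Matroid.ofIsBaseOfFinite (E := Set.univ) Set.finite_univ IsB
    ⟨_, 7, by decide, rfl⟩ exchange (fun _ _ => Set.subset_univ _)

/-- three elements get multiplicity three -/
def f (i : Fin 13) : Fin 7 :=
  if i < 3 then 0 else if i < 6 then 1 else if i < 9 then 2 else
    if i = 9 then 3 else if i = 10 then 4 else if i = 11 then 5 else 6

lemma f_surj : Function.Surjective f := by decide

/-- The matroid: the dual of the non-Fano plane in which three elements (the diagonal points)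
have been tripled. -/
noncomputable def M13 : Matroid (Fin 13) := (N7.comap f)✶

lemma N7_E : N7.E = Set.univ := rfl

lemma N7_isBase (B : Set (Fin 7)) : N7.IsBase B ↔ IsB B := Iff.rfl

lemma M13_E : M13.E = Set.univ := by
  simp [M13, N7_E]

lemma comap_isBase (B : Set (Fin 13)) :
    (N7.comap f).IsBase B ↔ IsB (f '' B) ∧ B.InjOn f := by
  rw [Matroid.comap_isBase_iff, N7_E, Set.preimage_univ, Set.image_univ, f_surj.range_eq,
    ← N7_E, Matroid.isBasis_ground_iff, N7_isBase]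
  simp

def Sp (F : Finset (Fin 7)) : Prop := ∃ m ∈ bl, toSet7 m ⊆ F

lemma M13_indep (I : Finset (Fin 13)) :
    M13.Indep (I : Set (Fin 13)) ↔ Sp (Finset.image f (univ \ I)) := by
  rw [M13, Matroid.dual_indep_iff_exists']
  constructor
  · rintro ⟨-, B, hB, hd⟩
    rw [comap_isBase] at hB
    obtain ⟨⟨m, hF, hFB⟩, hinj⟩ := hB
    refine ⟨m, hF, ?_⟩
    intro e he
    have : e ∈ f '' B := by rw [← hFB]; exact_mod_cast he
    obtain ⟨i, hi, rfl⟩ := this
    refine Finset.mem_image_of_mem f ?_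
    simp only [Finset.mem_sdiff, Finset.mem_univ, true_and]
    intro hiI
    exact (Set.disjoint_left.1 hd) (by exact_mod_cast hiI) hi
  · rintro ⟨m, hF, hFs⟩
    refine ⟨by simp [N7_E], ?_⟩
    set F := toSet7 m with hFdef
    have hch : ∀ e : Fin 7, ∃ i : Fin 13, e ∈ F → (i ∉ I ∧ f i = e) := by
      intro e
      by_cases he : e ∈ F
      · have := hFs he
        simp only [Finset.mem_image, Finset.mem_sdiff, Finset.mem_univ, true_and] at this
        obtain ⟨i, hi, hfi⟩ := this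
        exact ⟨i, fun _ => ⟨hi, hfi⟩⟩
      · exact ⟨0, fun h => absurd h he⟩
    choose g hg using hch
    refine ⟨g '' (F : Set (Fin 7)), ?_, ?_⟩
    · rw [comap_isBase]
      constructor
      · refine ⟨m, hF, ?_⟩
        rw [← hFdef]
        ext e
        simp only [Set.mem_image, exists_exists_and_eq_and, Finset.mem_coe]
        constructor
        · intro he; exact ⟨e, he, (hg e he).2⟩
        · rintro ⟨a, ha, rfl⟩; rw [(hg a ha).2]; exact ha
      · rintro _ ⟨a, ha, rfl⟩ _ ⟨b, hb, rfl⟩ hab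
        rw [(hg a (by exact_mod_cast ha)).2, (hg b (by exact_mod_cast hb)).2] at hab
        rw [hab]
    · rw [Set.disjoint_left]
      rintro i hi ⟨a, ha, rfl⟩
      exact (hg a (by exact_mod_cast ha)).1 (by exact_mod_cast hi)

/-! ### counting -/

def toSet (k : ℕ) : Finset (Fin 13) := univ.filter (fun i => k.testBit i.val)

lemma toSet_inj (k l : ℕ) (hk : k < 8192) (hl : l < 8192) (h : toSet k = toSet l) : k = l := by
  apply Nat.eq_of_testBit_eq
  intro i
  by_cases hi : i < 13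
  · have : (⟨i, hi⟩ : Fin 13) ∈ toSet k ↔ (⟨i, hi⟩ : Fin 13) ∈ toSet l := by rw [h]
    simp only [toSet, Finset.mem_filter, Finset.mem_univ, true_and] at this
    exact Bool.eq_iff_iff.2 this
  · have h1 : 8192 ≤ 2 ^ i := by
      calc 8192 = 2 ^ 13 := by norm_num
        _ ≤ 2 ^ i := Nat.pow_le_pow_right (by norm_num) (by omega)
    rw [Nat.testBit_lt_two_pow (lt_of_lt_of_le hk h1), Nat.testBit_lt_two_pow (lt_of_lt_of_le hl h1)]

lemma toSet_bij : Function.Bijective (fun k : Fin 8192 => toSet k.val) := by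
  rw [Fintype.bijective_iff_injective_and_card]
  constructor
  · intro k l h
    exact Fin.ext (toSet_inj k l k.2 l.2 h)
  · simp

/-- interval summation with logarithmic depth -/
def sumI (g : ℕ → ℕ) : ℕ → ℕ → ℕ
  | 0, lo => g lo
  | k + 1, lo => sumI g k lo + sumI g k (lo + 2 ^ k)

lemma sumI_eq (g : ℕ → ℕ) (k lo : ℕ) :
    sumI g k lo = ∑ x ∈ Finset.range (2 ^ k), g (lo + x) := by
  induction k generalizing lo with
  | zero => simp [sumI]
  | succ k ih =>
    rw [sumI, ih, ih, pow_succ, mul_two, Finset.sum_range_add]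
    simp only [add_assoc]

/-- `0` or the bit `2 ^ j` -/
def bt (b : Bool) (j : ℕ) : ℕ := bif b then 0 else 2 ^ j

/-- the mask of the set of classes which meet the complement -/
def tm (k : ℕ) : ℕ :=
  bt (k.testBit 0 && k.testBit 1 && k.testBit 2) 0 |||
  bt (k.testBit 3 && k.testBit 4 && k.testBit 5) 1 |||
  bt (k.testBit 6 && k.testBit 7 && k.testBit 8) 2 |||
  bt (k.testBit 9) 3 ||| bt (k.testBit 10) 4 ||| bt (k.testBit 11) 5 ||| bt (k.testBit 12) 6

def pc (k : ℕ) : ℕ :=
  (k.testBit 0).toNat + (k.testBit 1).toNat + (k.testBit 2).toNat + (k.testBit 3).toNat +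
  (k.testBit 4).toNat + (k.testBit 5).toNat + (k.testBit 6).toNat + (k.testBit 7).toNat +
  (k.testBit 8).toNat + (k.testBit 9).toNat + (k.testBit 10).toNat + (k.testBit 11).toNat +
  (k.testBit 12).toNat

def tbl : ℕ := 340282365574053641500407382869832951936

lemma tbl_ok' : ∀ t < 128, (∃ m ∈ bl, t &&& m = m) ↔ tbl.testBit t = true := by
  decide +kernel

lemma sub_iff (t m : ℕ) (hm : m < 128) : toSet7 m ⊆ toSet7 t ↔ t &&& m = m := by
  constructor
  · intro h
    apply Nat.eq_of_testBit_eq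
    intro i
    rw [Nat.testBit_and]
    by_cases hi : i < 7
    · cases hb : m.testBit i
      · simp
      · have := (mem_toSet7 t ⟨i, hi⟩).1 (h ((mem_toSet7 m ⟨i, hi⟩).2 hb))
        simp only at this
        rw [this]; rfl
    · have h1 : m < 2 ^ i := by
        calc m < 2 ^ 7 := by omega
          _ ≤ 2 ^ i := Nat.pow_le_pow_right (by norm_num) (by omega)
      rw [Nat.testBit_lt_two_pow h1]; simp
  · intro h i hi
    rw [mem_toSet7] at hi ⊢
    rw [← h, Nat.testBit_and, Bool.and_eq_true] at hi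
    exact hi.1

lemma tbl_ok (t : ℕ) (ht : t < 128) : Sp (toSet7 t) ↔ tbl.testBit t = true := by
  rw [← tbl_ok' t ht]
  constructor
  · rintro ⟨m, hm, h⟩
    exact ⟨m, hm, (sub_iff t m (bl_lt m hm)).1 h⟩
  · rintro ⟨m, hm, h⟩
    exact ⟨m, hm, (sub_iff t m (bl_lt m hm)).2 h⟩


lemma bt_testBit (b : Bool) (j e : ℕ) : (bt b j).testBit e = (!b && decide (j = e)) := by
  cases b
  · simp [bt, Nat.testBit_two_pow]
  · simp [bt]

lemma bt_lt (b : Bool) (j : ℕ) (hj : j < 7) : bt b j < 2 ^ 7 := by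
  cases b
  · simp only [bt, cond_false]
    exact Nat.pow_lt_pow_right (by norm_num) hj
  · simp [bt]

lemma image_compl (k : ℕ) : Finset.image f (univ \ toSet k) = toSet7 (tm k) := by
  ext e
  have h1 : e ∈ toSet7 (tm k) ↔ (tm k).testBit e.val = true := by simp [toSet7]
  have h2 : e ∈ Finset.image f (univ \ toSet k) ↔ ∃ i : Fin 13, k.testBit i.val = false ∧ f i = e := by
    simp [toSet]
  rw [h1, h2, tm]
  clear h1 h2
  simp only [Nat.testBit_or, bt_testBit]
  fin_cases e <;> simp [Fin.exists_fin_succ, f, or_assoc]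

lemma tm_lt (k : ℕ) : tm k < 128 := by
  have h : tm k < 2 ^ 7 := by
    unfold tm
    exact Nat.or_lt_two_pow (Nat.or_lt_two_pow (Nat.or_lt_two_pow (Nat.or_lt_two_pow
      (Nat.or_lt_two_pow (Nat.or_lt_two_pow (bt_lt _ _ (by norm_num)) (bt_lt _ _ (by norm_num)))
      (bt_lt _ _ (by norm_num))) (bt_lt _ _ (by norm_num))) (bt_lt _ _ (by norm_num)))
      (bt_lt _ _ (by norm_num))) (bt_lt _ _ (by norm_num))
  omega

lemma card_toSet (k : ℕ) : (toSet k).card = pc k := by
  unfold toSet pc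
  have hb : ∀ b : Bool, (if b = true then 1 else 0 : ℕ) = b.toNat := by decide
  rw [Finset.card_filter]
  simp only [hb]
  rw [Fin.sum_univ_def]
  simp only [List.finRange_succ, List.finRange_zero, List.map_cons, List.map_nil, List.sum_cons,
    List.sum_nil, Fin.val_zero, Fin.val_succ]
  ring

def gg (k : ℕ) : ℕ := bif tbl.testBit (tm k) then 16384 ^ (pc k) else 0

lemma G_eq : sumI gg 13 0 = 1 + 13 * 16384 + 78 * 16384 ^ 2 + 286 * 16384 ^ 3 + 715 * 16384 ^ 4
  + 1287 * 16384 ^ 5 + 1716 * 16384 ^ 6 + 1713 * 16384 ^ 7 + 1263 * 16384 ^ 8 + 640 * 16384 ^ 9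
  + 175 * 16384 ^ 10 := by decide +kernel

/-- the masks of the independent sets of size `i` -/
def cc (i : ℕ) : ℕ := ((Finset.range 8192).filter
  (fun k => tbl.testBit (tm k) = true ∧ pc k = i)).card

lemma indepCount_eq (i : ℕ) : indepCount M13 i = cc i := by
  classical
  unfold indepCount cc
  have h : {I : Set (Fin 13) | M13.Indep I ∧ I.ncard = i} =
      (fun k : ℕ => ((toSet k : Finset (Fin 13)) : Set (Fin 13))) ''
        (((Finset.range 8192).filter
          (fun k => tbl.testBit (tm k) = true ∧ pc k = i) : Finset ℕ) : Set ℕ) := by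
    ext I
    constructor
    · rintro ⟨h1, h2⟩
      obtain ⟨k, hk⟩ := toSet_bij.2 I.toFinset
      have hk' : toSet k.val = I.toFinset := hk
      have hI : ((toSet k.val : Finset (Fin 13)) : Set (Fin 13)) = I := by rw [hk']; simp
      refine ⟨k.val, ?_, hI⟩
      simp only [Finset.coe_filter, Finset.mem_range, Set.mem_ofPred_eq]
      refine ⟨k.2, ?_, ?_⟩
      · rw [← hI, M13_indep, image_compl] at h1
        exact (tbl_ok _ (tm_lt _)).1 h1
      · rw [← card_toSet, ← h2, ← hI, Set.ncard_coe_finset]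
    · rintro ⟨k, hk, rfl⟩
      simp only [Finset.coe_filter, Finset.mem_range, Set.mem_ofPred_eq] at hk
      obtain ⟨hk1, hk2, hk3⟩ := hk
      refine ⟨?_, ?_⟩
      · show M13.Indep _
        rw [M13_indep, image_compl]
        exact (tbl_ok _ (tm_lt _)).2 hk2
      · show Set.ncard _ = i
        rw [Set.ncard_coe_finset, card_toSet, hk3]
  rw [h, Set.InjOn.ncard_image, Set.ncard_coe_finset]
  intro k hk l hl hkl
  simp only [Finset.coe_filter, Finset.mem_range, Set.mem_ofPred_eq] at hk hl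
  exact toSet_inj k l hk.1 hl.1 (Finset.coe_injective hkl)

lemma pc_lt (k : ℕ) : pc k < 14 := by
  rw [← card_toSet]
  have := Finset.card_le_univ (toSet k)
  simp at this
  omega

lemma fiber_sum (N B : ℕ) (P : ℕ → Bool) (w : ℕ → ℕ) (hw : ∀ x, w x < 14) :
    ∑ x ∈ Finset.range N, (bif P x then B ^ (w x) else 0) =
      ∑ i ∈ Finset.range 14, ((Finset.range N).filter
        (fun k => P k = true ∧ w k = i)).card * B ^ i := by
  have h1 : ∑ x ∈ Finset.range N, (bif P x then B ^ (w x) else 0) =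
      ∑ x ∈ (Finset.range N).filter (fun k => P k = true), B ^ w x := by
    rw [Finset.sum_filter]
    refine Finset.sum_congr rfl (fun x _ => ?_)
    cases P x <;> rfl
  rw [h1, ← Finset.sum_fiberwise_of_maps_to (t := Finset.range 14) (g := w)
    (fun x _ => Finset.mem_range.2 (hw x))]
  refine Finset.sum_congr rfl (fun i _ => ?_)
  rw [Finset.filter_filter, Finset.sum_congr rfl (g := fun _ => B ^ i)]
  · simp
  · intro x hx
    rw [(Finset.mem_filter.1 hx).2.2]

lemma sum_cc : sumI gg 13 0 = ∑ i ∈ Finset.range 14, cc i * 16384 ^ i := by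
  have e13 : (2 : ℕ) ^ 13 = 8192 := by norm_num
  have h := fiber_sum 8192 16384 (fun k => tbl.testBit (tm k)) pc pc_lt
  rw [sumI_eq, e13]
  simp only [zero_add]
  exact h

lemma cc_lt (i : ℕ) : cc i < 16384 := by
  have : cc i ≤ (Finset.range 8192).card := Finset.card_filter_le _ _
  simp at this
  omega

lemma digit_step (B c R N c' N' : ℕ) (hc : c < B) (h : c + B * R = N) (hN : N = c' + B * N')
    (hc' : c' < B) : c = c' ∧ R = N' := by
  have hB : 0 < B := by omega
  rw [hN] at h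
  have h1 : c = c' := by
    have := congrArg (· % B) h
    simpa [Nat.add_mul_mod_self_left, Nat.mod_eq_of_lt hc, Nat.mod_eq_of_lt hc'] using this
  refine ⟨h1, ?_⟩
  rw [h1] at h
  exact Nat.eq_of_mul_eq_mul_left hB (Nat.add_left_cancel h)

lemma digits (c : ℕ → ℕ) (hc : ∀ i, c i < 16384)
    (h : ∑ i ∈ Finset.range 14, c i * 16384 ^ i =
    1 + 13 * 16384 + 78 * 16384 ^ 2 + 286 * 16384 ^ 3 + 715 * 16384 ^ 4
  + 1287 * 16384 ^ 5 + 1716 * 16384 ^ 6 + 1713 * 16384 ^ 7 + 1263 * 16384 ^ 8 + 640 * 16384 ^ 9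
  + 175 * 16384 ^ 10) :
    c 0 = 1 ∧ c 1 = 13 ∧ c 2 = 78 ∧ c 3 = 286 ∧ c 4 = 715 ∧ c 5 = 1287 ∧
    c 6 = 1716 ∧ c 7 = 1713 ∧ c 8 = 1263 ∧ c 9 = 640 ∧ c 10 = 175 ∧ c 11 = 0 ∧ c 12 = 0 ∧
    c 13 = 0 := by
  simp only [Finset.sum_range_succ, Finset.sum_range_zero] at h
  have h0 : c 0 + 16384 * (c 1 + 16384 * (c 2 + 16384 * (c 3 + 16384 * (c 4 + 16384 * (c 5 + 16384 * (c 6 + 16384 * (c 7 + 16384 * (c 8 + 16384 * (c 9 + 16384 * (c 10 + 16384 * (c 11 + 16384 * (c 12 + 16384 * (c 13))))))))))))) = 243968852346049877657522868897047892277280769 := by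
    linarith
  obtain ⟨e0, h1⟩ := digit_step 16384 _ _ _ 1 14890677023074333353120292291079583268877 (hc 0) h0 (by norm_num) (by norm_num)
  obtain ⟨e1, h2⟩ := digit_step 16384 _ _ _ 13 908854798771626791572283465031712846 (hc 1) h1 (by norm_num) (by norm_num)
  obtain ⟨e2, h3⟩ := digit_step 16384 _ _ _ 78 55472094651588549290300504457502 (hc 2) h2 (by norm_num) (by norm_num)
  obtain ⟨e3, h4⟩ := digit_step 16384 _ _ _ 286 3385747964574496416644317899 (hc 3) h3 (by norm_num) (by norm_num)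
  obtain ⟨e4, h5⟩ := digit_step 16384 _ _ _ 715 206649656040923853554951 (hc 4) h4 (by norm_num) (by norm_num)
  obtain ⟨e5, h6⟩ := digit_step 16384 _ _ _ 1287 12612894045466543796 (hc 5) h5 (by norm_num) (by norm_num)
  obtain ⟨e6, h7⟩ := digit_step 16384 _ _ _ 1716 769829958829745 (hc 6) h6 (by norm_num) (by norm_num)
  obtain ⟨e7, h8⟩ := digit_step 16384 _ _ _ 1713 46986691823 (hc 7) h7 (by norm_num) (by norm_num)
  obtain ⟨e8, h9⟩ := digit_step 16384 _ _ _ 1263 2867840 (hc 8) h8 (by norm_num) (by norm_num)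
  obtain ⟨e9, h10⟩ := digit_step 16384 _ _ _ 640 175 (hc 9) h9 (by norm_num) (by norm_num)
  obtain ⟨e10, h11⟩ := digit_step 16384 _ _ _ 175 0 (hc 10) h10 (by norm_num) (by norm_num)
  obtain ⟨e11, h12⟩ := digit_step 16384 _ _ _ 0 0 (hc 11) h11 (by norm_num) (by norm_num)
  obtain ⟨e12, h13⟩ := digit_step 16384 _ _ _ 0 0 (hc 12) h12 (by norm_num) (by norm_num)
  exact ⟨e0, e1, e2, e3, e4, e5, e6, e7, e8, e9, e10, e11, e12, h13⟩

lemma key : ∑ i ∈ Finset.range 14, cc i * 16384 ^ i =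
    1 + 13 * 16384 + 78 * 16384 ^ 2 + 286 * 16384 ^ 3 + 715 * 16384 ^ 4
  + 1287 * 16384 ^ 5 + 1716 * 16384 ^ 6 + 1713 * 16384 ^ 7 + 1263 * 16384 ^ 8 + 640 * 16384 ^ 9
  + 175 * 16384 ^ 10 := Eq.trans sum_cc.symm G_eq

lemma cc_all : cc 0 = 1 ∧ cc 1 = 13 ∧ cc 2 = 78 ∧ cc 3 = 286 ∧ cc 4 = 715 ∧ cc 5 = 1287 ∧
    cc 6 = 1716 ∧ cc 7 = 1713 ∧ cc 8 = 1263 ∧ cc 9 = 640 ∧ cc 10 = 175 ∧ cc 11 = 0 ∧ cc 12 = 0 ∧
    cc 13 = 0 := digits cc cc_lt key

end Pool.Agent.MatRel
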