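import Mathlib

/-!
# A polynomial with a root outside the unit disk (MP_a27c8d_co)
-/

namespace Pool.Agent.MatRel

/-! ## A root outside the unit disk -/

/-- the H-polynomial -/
noncomputable def hp : Polynomial ℂ :=
  Polynomial.C 1 + Polynomial.C 3 * Polynomial.X + Polynomial.C 6 * Polynomial.X ^ 2
  + Polynomial.C 10 * Polynomial.X ^ 3 + Polynomial.C 15 * Polynomial.X ^ 4
  + Polynomial.C 21 * Polynomial.X ^ 5 + Polynomial.C 28 * Polynomial.X ^ 6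
  + Polynomial.C 33 * Polynomial.X ^ 7 + Polynomial.C 30 * Polynomial.X ^ 8
  + Polynomial.C 19 * Polynomial.X ^ 9 + Polynomial.C 9 * Polynomial.X ^ 10

lemma hp_eval (z : ℂ) : hp.eval z = 1 + 3 * z + 6 * z ^ 2 + 10 * z ^ 3 + 15 * z ^ 4 + 21 * z ^ 5
    + 28 * z ^ 6 + 33 * z ^ 7 + 30 * z ^ 8 + 19 * z ^ 9 + 9 * z ^ 10 := by
  simp [hp]

lemma hp_natDegree : hp.natDegree = 10 := by
  unfold hp; compute_degree!

lemma hp_ne_zero : hp ≠ 0 := by
  intro h; have := hp_natDegree; rw [h] at this; simp at this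

lemma factor_ineq (z ζ : ℂ) (hz : 1 ≤ ‖z‖) (hζ : ‖ζ‖ ≤ 1) :
    ‖z‖ * ‖1 / (starRingEnd ℂ) z - ζ‖ ≤ ‖z - ζ‖ := by
  have hz0 : z ≠ 0 := by intro h; rw [h] at hz; simp at hz; linarith
  have hc0 : (starRingEnd ℂ) z ≠ 0 := by simpa using hz0
  have h1 : ‖z‖ * ‖1 / (starRingEnd ℂ) z - ζ‖ = ‖1 - ζ * (starRingEnd ℂ) z‖ := by
    rw [← Complex.norm_conj z, ← norm_mul]; congr 1; field_simp
  rw [h1]
  have hzs : 1 ≤ Complex.normSq z := by
    rw [← Complex.sq_norm]; nlinarith [norm_nonneg z]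
  have hζs : Complex.normSq ζ ≤ 1 := by
    rw [← Complex.sq_norm]; nlinarith [norm_nonneg ζ]
  apply (sq_le_sq₀ (norm_nonneg _) (norm_nonneg _)).1
  rw [Complex.sq_norm, Complex.sq_norm]
  rw [Complex.normSq_apply] at hzs hζs
  rw [Complex.normSq_apply, Complex.normSq_apply]
  simp only [Complex.sub_re, Complex.sub_im, Complex.mul_re, Complex.mul_im, Complex.one_re,
    Complex.one_im, Complex.conj_re, Complex.conj_im]
  nlinarith [mul_nonneg (sub_nonneg.2 hzs) (sub_nonneg.2 hζs)]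

/-- If all roots lie in the closed unit disk then `|z|^n |p(1/conj z)| ≤ |p(z)|` for `|z| ≥ 1`. -/
lemma disk_ineq (p : Polynomial ℂ) (hroots : ∀ ζ ∈ p.roots, ‖ζ‖ ≤ 1) (z : ℂ) (hz : 1 ≤ ‖z‖) :
    ‖z‖ ^ p.natDegree * ‖p.eval (1 / (starRingEnd ℂ) z)‖ ≤ ‖p.eval z‖ := by
  have hs := IsAlgClosed.splits p
  have hp : p = Polynomial.C p.leadingCoeff * (p.roots.map (fun a => Polynomial.X - Polynomial.C a)).prod := hs.eq_prod_roots
  have hcard : p.roots.card = p.natDegree := hs.natDegree_eq_card_roots.symm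
  have ev : ∀ w : ℂ, p.eval w = p.leadingCoeff * (p.roots.map (fun a => w - a)).prod := by
    intro w
    conv_lhs => rw [hp]
    rw [Polynomial.eval_mul, Polynomial.eval_C, Polynomial.eval_multiset_prod, Multiset.map_map]
    congr 2
    apply Multiset.map_congr rfl
    intro a _
    simp
  rw [ev, ev, norm_mul, norm_mul, ← hcard]
  have key : ∀ s : Multiset ℂ, (∀ ζ ∈ s, ‖ζ‖ ≤ 1) →
      ‖z‖ ^ s.card * ‖(s.map (fun a => 1 / (starRingEnd ℂ) z - a)).prod‖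
        ≤ ‖(s.map (fun a => z - a)).prod‖ := by
    intro s
    induction s using Multiset.induction_on with
    | empty => intro _; simp
    | cons a s ih =>
      intro h
      have h1 := ih (fun ζ hζ => h ζ (Multiset.mem_cons_of_mem hζ))
      have h2 := factor_ineq z a hz (h a (Multiset.mem_cons_self a s))
      rw [Multiset.map_cons, Multiset.map_cons, Multiset.prod_cons, Multiset.prod_cons,
        Multiset.card_cons, norm_mul, norm_mul, pow_succ]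
      calc ‖z‖ ^ s.card * ‖z‖ * (‖1 / (starRingEnd ℂ) z - a‖ *
            ‖(s.map (fun a => 1 / (starRingEnd ℂ) z - a)).prod‖)
          = (‖z‖ * ‖1 / (starRingEnd ℂ) z - a‖) * (‖z‖ ^ s.card *
            ‖(s.map (fun a => 1 / (starRingEnd ℂ) z - a)).prod‖) := by ring
        _ ≤ ‖z - a‖ * ‖(s.map (fun a => z - a)).prod‖ := by
            apply mul_le_mul h2 h1 (by positivity) (by positivity)
  have := key p.roots hroots
  calc ‖z‖ ^ p.roots.card * (‖p.leadingCoeff‖ * ‖(p.roots.map (fun a => 1 / (starRingEnd ℂ) z - a)).prod‖)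
      = ‖p.leadingCoeff‖ * (‖z‖ ^ p.roots.card * ‖(p.roots.map (fun a => 1 / (starRingEnd ℂ) z - a)).prod‖) := by ring
    _ ≤ ‖p.leadingCoeff‖ * ‖(p.roots.map (fun a => z - a)).prod‖ := by gcongr


lemma exists_root_outside : ∃ z : ℂ, 1 < ‖z‖ ∧ hp.eval z = 0 := by
  by_contra hcon
  push Not at hcon
  have hroots : ∀ ζ ∈ hp.roots, ‖ζ‖ ≤ 1 := by
    intro ζ hζ
    by_contra h
    exact hcon ζ (not_le.1 h) ((Polynomial.mem_roots hp_ne_zero).1 hζ)
  set z0 : ℂ := ⟨-1/5, 1⟩ with hz0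
  have hn : Complex.normSq z0 = 26 / 25 := by
    rw [Complex.normSq_apply]; norm_num [hz0]
  have hn1 : ‖z0‖ ^ 2 = 26 / 25 := by rw [Complex.sq_norm, hn]
  have hge : 1 ≤ ‖z0‖ := by nlinarith [norm_nonneg z0]
  have h := disk_ineq hp hroots z0 hge
  rw [hp_natDegree] at h
  have hw : 1 / (starRingEnd ℂ) z0 = ⟨-5/26, 25/26⟩ := by
    have hne : (starRingEnd ℂ) z0 ≠ 0 := by
      intro h0
      have : z0 = 0 := by simpa using h0
      rw [this] at hn; norm_num at hn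
    rw [div_eq_iff hne]
    apply Complex.ext <;> simp [hz0] <;> norm_num
  rw [hw] at h
  have h2 : (‖z0‖ ^ 10 * ‖hp.eval ⟨-5/26, 25/26⟩‖) ^ 2 ≤ ‖hp.eval z0‖ ^ 2 := by
    apply pow_le_pow_left₀ (by positivity) h
  rw [mul_pow, Complex.sq_norm, Complex.sq_norm] at h2
  have h3 : (‖z0‖ ^ 10) ^ 2 = (26 / 25) ^ 10 := by
    rw [← hn1]; ring
  rw [h3, hp_eval, hp_eval] at h2
  have e1 : (1 + 3 * z0 + 6 * z0 ^ 2 + 10 * z0 ^ 3 + 15 * z0 ^ 4 + 21 * z0 ^ 5
    + 28 * z0 ^ 6 + 33 * z0 ^ 7 + 30 * z0 ^ 8 + 19 * z0 ^ 9 + 9 * z0 ^ 10)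
      = ⟨-2135586/9765625, 75103/390625⟩ := by
    apply Complex.ext <;>
    · simp only [hz0, pow_succ, pow_zero, Complex.add_re, Complex.mul_re, Complex.mul_im,
        Complex.add_im, Complex.one_re, Complex.one_im, Complex.re_ofNat, Complex.im_ofNat]
      norm_num
  have e2 : (1 + 3 * (⟨-5/26, 25/26⟩ : ℂ) + 6 * (⟨-5/26, 25/26⟩ : ℂ) ^ 2
      + 10 * (⟨-5/26, 25/26⟩ : ℂ) ^ 3 + 15 * (⟨-5/26, 25/26⟩ : ℂ) ^ 4
      + 21 * (⟨-5/26, 25/26⟩ : ℂ) ^ 5 + 28 * (⟨-5/26, 25/26⟩ : ℂ) ^ 6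
      + 33 * (⟨-5/26, 25/26⟩ : ℂ) ^ 7 + 30 * (⟨-5/26, 25/26⟩ : ℂ) ^ 8
      + 19 * (⟨-5/26, 25/26⟩ : ℂ) ^ 9 + 9 * (⟨-5/26, 25/26⟩ : ℂ) ^ 10)
      = ⟨934488324223/4411471739168, 338999077025/1102867934792⟩ := by
    apply Complex.ext <;>
    · simp only [pow_succ, pow_zero, Complex.add_re, Complex.mul_re, Complex.mul_im,
        Complex.add_im, Complex.one_re, Complex.one_im, Complex.re_ofNat, Complex.im_ofNat]
      norm_num
  rw [e1, e2, Complex.normSq_apply, Complex.normSq_apply] at h2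
  norm_num at h2

end Pool.Agent.MatRel
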